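import Pool.Agent.H987.Y.StB

/-! Project Y (networks on the lattice): folding the tree of sheets into the lattice. -/

set_option autoImplicit false
set_option linter.unusedSectionVars false

open scoped BigOperators
open MeasureTheory

namespace Pool.Agent.H323.Y987

open Pool.Agent.H987.Y
open Pool.Agent.H987.Z (RedC evC)

/-! ### words -/

section words

variable {D K n : ℕ}

/-- reduction of a lattice vector modulo `K` -/
def rd (K : ℕ) {D : ℕ} (v : Lt D) : Multiplicative (Fin D → ZMod K) :=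
  Multiplicative.ofAdd fun k => ((v k : ℤ) : ZMod K)

/-- from labels to colours -/
noncomputable def hat (K : ℕ) {D n : ℕ} :
    List (Ix (Lt D) n) → List (Multiplicative (Fin D → ZMod K) × Fin (n + 1))
  | [] => []
  | (u, j) :: l => (rd K u, lab (col l) u j) :: hat K l

theorem hat_length (l : List (Ix (Lt D) n)) : (hat K l).length = l.length := by
  induction l with
  | nil => rfl
  | cons p l ih => obtain ⟨u, j⟩ := p; simp [hat, ih]

theorem rd_inj {b : ℕ} (hb : 2 * b < K) {u v : Lt D} (hu : ∀ k, |u k| ≤ (b : ℤ))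
    (hv : ∀ k, |v k| ≤ (b : ℤ)) (h : rd K u = rd K v) : u = v := by
  funext k
  have h1 : ((u k : ℤ) : ZMod K) = ((v k : ℤ) : ZMod K) := congrFun (congrArg Multiplicative.toAdd h) k
  rw [ZMod.intCast_eq_intCast_iff_dvd_sub] at h1
  have h2 : |v k - u k| < (K : ℤ) := by
    have h3 := abs_sub (v k) (u k)
    have h4 := hu k
    have h5 := hv k
    have : ((2 * b : ℕ) : ℤ) < (K : ℤ) := by exact_mod_cast hb
    push_cast at this
    linarith
  have h3 := Int.eq_zero_of_abs_lt_dvd h1 h2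
  linarith

theorem rd_eq_one {b : ℕ} (hb : 2 * b < K) {u : Lt D} (hu : ∀ k, |u k| ≤ (b : ℤ))
    (h : rd K u = 1) : u = 0 := by
  refine rd_inj hb hu (fun k => by simp) ?_
  rw [h]
  refine (congrArg Multiplicative.ofAdd ?_ : (Multiplicative.ofAdd (0 : Fin D → ZMod K)) = _)
  funext k
  simp

theorem lab_inj {c : Fin (n + 1)} {u : Lt D} {j j' : Fin (n + 1)}
    (h : lab c u j = lab c u j') : j = j' := by
  unfold lab at h
  split_ifs at h with hu
  · exact (Equiv.swap 0 c).injective h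
  · exact h

theorem lab_ne {c : Fin (n + 1)} {j : Fin (n + 1)} (h : j ≠ 0) : lab c (0 : Lt D) j ≠ c := by
  intro h2
  unfold lab at h2
  rw [if_pos rfl] at h2
  have h3 : (Equiv.swap 0 c) 0 = c := Equiv.swap_apply_left _ _
  exact h ((Equiv.swap 0 c).injective (h2.trans h3.symm))

theorem redC_hat {b : ℕ} (hb : 2 * b < K) : ∀ l : List (Ix (Lt D) n), Rd l →
    (∀ p ∈ l, ∀ i, |p.1 i| ≤ (b : ℤ)) → RedC (hat K l)
  | [], _, _ => trivial
  | [(u, j)], _, _ => trivial
  | (u, j) :: (u', j') :: l, h, hb' => by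
    refine ⟨fun hu => ?_, redC_hat hb ((u', j') :: l) h.2
      (fun p hp => hb' p (List.mem_cons_of_mem _ hp))⟩
    have h0 : u = 0 := rd_eq_one hb (hb' (u, j) (by simp)) hu
    subst h0
    exact lab_ne (h.1 (by simp) rfl)

theorem hat_inj {b : ℕ} (hb : 2 * b < K) : ∀ l l' : List (Ix (Lt D) n),
    (∀ p ∈ l, ∀ i, |p.1 i| ≤ (b : ℤ)) → (∀ p ∈ l', ∀ i, |p.1 i| ≤ (b : ℤ)) →
    hat K l = hat K l' → l = l'
  | [], [], _, _, _ => rfl
  | [], (u, j) :: l, _, _, h => by simp [hat] at h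
  | (u, j) :: l, [], _, _, h => by simp [hat] at h
  | (u, j) :: l, (u', j') :: l', h1, h2, h => by
    simp only [hat, List.cons.injEq, Prod.mk.injEq] at h
    obtain ⟨⟨hu, hj⟩, hl⟩ := h
    have hl' : l = l' := hat_inj hb l l' (fun p hp => h1 p (List.mem_cons_of_mem _ hp))
      (fun p hp => h2 p (List.mem_cons_of_mem _ hp)) hl
    subst hl'
    have hu' : u = u' := rd_inj hb (h1 (u, j) (by simp)) (h2 (u', j') (by simp)) hu
    subst hu'
    rw [lab_inj hj]

theorem bs_eq {Q : Type} [Group Q] (ρ : Multiplicative (Fin D → ZMod K) →* Q) (s : Fin (n + 1) → Q)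
    (σ : Fin (n + 1) → Lt D → Lt D) (dp : Lt D → ℕ) (P : Lt D → Q → Lt D)
    (hσ : ∀ j β q, σ j (P β q) = P β (q * s j))
    (hst : ∀ β q (v : Lt D), 1 ≤ dp β → (∀ k, |v k| < (K : ℤ)) →
      ∃ β', P β q + v = P β' (q * ρ (rd K v)) ∧ dp β ≤ dp β' + 1) (β : Lt D) (q : Q) :
    ∀ l : List (Ix (Lt D) n), (∀ p ∈ l, ∀ i, |p.1 i| < (K : ℤ)) → l.length ≤ dp β →
      ∃ β', bs σ (P β q) l = P β' (q * evC ρ s (hat K l)) ∧ dp β ≤ dp β' + l.length
  | [], _, _ => ⟨β, by simp [bs, evC, hat], by simp⟩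
  | (u, j) :: l, h1, h2 => by
    rw [List.length_cons] at h2
    obtain ⟨β₁, e1, e2⟩ := bs_eq ρ s σ dp P hσ hst β q l
      (fun p hp => h1 p (List.mem_cons_of_mem _ hp)) (by omega)
    obtain ⟨β₂, e3, e4⟩ := hst β₁ (q * evC ρ s (hat K l)) u (by omega) (h1 (u, j) (by simp))
    refine ⟨β₂, ?_, by rw [List.length_cons]; omega⟩
    simp only [bs, e1, e3, hσ, hat, evC]
    rw [mul_assoc, mul_assoc, mul_assoc]

end words

/-! ### cosets -/

section coset

variable {C Q : Type} [Group C] [Group Q] (ρ : C →* Q)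

theorem exists_xc (q : Q) : ∃ x : C, q = Quotient.out (QuotientGroup.mk q : Q ⧸ ρ.range) * ρ x := by
  have h1 : (QuotientGroup.mk (Quotient.out (QuotientGroup.mk q : Q ⧸ ρ.range)) : Q ⧸ ρ.range) =
      QuotientGroup.mk q := QuotientGroup.out_eq' _
  rw [QuotientGroup.eq] at h1
  obtain ⟨x, hx⟩ := h1
  exact ⟨x, by rw [hx]; group⟩

/-- the coordinate in the coset -/
noncomputable def xc (q : Q) : C := (exists_xc ρ q).choose

theorem xc_spec (q : Q) : q = Quotient.out (QuotientGroup.mk q : Q ⧸ ρ.range) * ρ (xc ρ q) :=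
  (exists_xc ρ q).choose_spec

theorem mk_mul (q : Q) (x : C) : (QuotientGroup.mk (q * ρ x) : Q ⧸ ρ.range) = QuotientGroup.mk q := by
  rw [eq_comm, QuotientGroup.eq]
  exact ⟨x, by group⟩

theorem xc_mul (hρ : Function.Injective ρ) (q : Q) (x : C) : xc ρ (q * ρ x) = xc ρ q * x := by
  have h1 := xc_spec ρ (q * ρ x)
  rw [mk_mul] at h1
  have h2 : q * ρ x = Quotient.out (QuotientGroup.mk q : Q ⧸ ρ.range) * ρ (xc ρ q * x) := by
    conv_lhs => rw [xc_spec ρ q]
    rw [map_mul, mul_assoc]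
  exact (hρ (mul_left_cancel (h2.symm.trans h1))).symm

theorem mk_out (s : Q ⧸ ρ.range) (x : C) :
    (QuotientGroup.mk (Quotient.out s * ρ x) : Q ⧸ ρ.range) = s := by
  rw [mk_mul]; exact QuotientGroup.out_eq' _

theorem xc_out (hρ : Function.Injective ρ) (s : Q ⧸ ρ.range) (x : C) :
    xc ρ (Quotient.out s * ρ x) = x := by
  have h1 := xc_spec ρ (Quotient.out s * ρ x)
  rw [mk_out] at h1
  exact (hρ (mul_left_cancel h1)).symm

end coset

/-! ### phases -/

section phase

variable {D N K : ℕ}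

/-- a phase modulo `K` -/
def cf (K : ℕ) {D N : ℕ} (h : Ph D N) : Fin D → ZMod K := fun k => ((h k : ℕ) : ZMod K)

/-- `Fin N` and `ZMod N` -/
def fe (N : ℕ) [NeZero N] : Fin N ≃ ZMod N where
  toFun a := ((a : ℕ) : ZMod N)
  invFun z := ⟨z.val, ZMod.val_lt z⟩
  left_inv a := by
    ext
    simp [ZMod.val_natCast_of_lt a.2]
  right_inv z := by simp

/-- the shift of the phases by `- δ` -/
def sh [NeZero N] (δ : Fin D → ZMod N) : Ph D N ≃ Ph D N :=
  Equiv.piCongrRight fun k => (fe N).trans ((Equiv.subRight (δ k)).trans (fe N).symm)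

theorem sh_spec [NeZero N] (δ : Fin D → ZMod N) (h : Ph D N) (k : Fin D) :
    ((sh δ h k : ℕ) : ZMod N) = ((h k : ℕ) : ZMod N) - δ k := by
  have h1 : fe N (sh δ h k) = fe N (h k) - δ k := by
    simp [sh]
  exact h1

variable {C Q : Type} [Group Q]

/-- the parametrization -/
noncomputable def par [NeZero K] (ρ : Multiplicative (Fin D → ZMod K) →* Q)
    (hρ : Function.Injective ρ) {s0 : ℕ}
    (e : (Q ⧸ ρ.range) × ((Q ⧸ ρ.range) → Ph D N) ≃ Fin s0) :
    Q × ((Q ⧸ ρ.range) → Ph D N) ≃ Fin s0 × (Fin D → ZMod K) where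
  toFun q := (e (QuotientGroup.mk q.1, q.2),
    Multiplicative.toAdd (xc ρ q.1) + cf K (q.2 (QuotientGroup.mk q.1)))
  invFun y := (Quotient.out (e.symm y.1).1 *
    ρ (Multiplicative.ofAdd (y.2 - cf K ((e.symm y.1).2 (e.symm y.1).1))), (e.symm y.1).2)
  left_inv := by
    rintro ⟨q, φ⟩
    simp only [Equiv.symm_apply_apply, add_sub_cancel_right, ofAdd_toAdd]
    rw [← xc_spec]
  right_inv := by
    rintro ⟨i, r⟩
    obtain ⟨⟨s, φ⟩, rfl⟩ := e.surjective i
    simp only [Equiv.symm_apply_apply]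
    rw [mk_out, xc_out ρ hρ]
    simp

end phase

/-! ### measures -/

section meas

theorem unif_singleton (C : Type) [Fintype C] [MeasurableSpace C] [MeasurableSingletonClass C]
    (c : C) : unif C {c} = (Fintype.card C : ENNReal)⁻¹ := by
  unfold unif
  rw [Measure.smul_apply, Measure.count_singleton]
  simp

instance unif_prob (C : Type) [Fintype C] [MeasurableSpace C] [MeasurableSingletonClass C]
    [Nonempty C] : IsProbabilityMeasure (unif C) := by
  constructor
  unfold unif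
  rw [Measure.smul_apply, Measure.count_univ]
  simp only [ENat.card_eq_coe_fintype_card, smul_eq_mul]
  exact ENNReal.inv_mul_cancel (by simp) (by simp)

theorem map_inj {A B Y : Type} [MeasurableSpace Y] (σ : A → B) (hσ : Function.Injective σ)
    (ν : Measure Y) [IsProbabilityMeasure ν] :
    (Measure.infinitePi fun _ : B => ν).map (fun V : B → Y => fun a => V (σ a)) =
      Measure.infinitePi fun _ : A => ν := by
  classical
  have hm : Measurable fun V : B → Y => fun a => V (σ a) :=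
    measurable_pi_lambda _ fun a => measurable_pi_apply _
  refine Measure.eq_infinitePi _ fun s t ht => ?_
  rw [Measure.map_apply hm (MeasurableSet.pi s.countable_toSet fun i _ => ht i)]
  obtain ⟨t', ht'⟩ : ∃ t' : B → Set Y, t' = fun v => if h : ∃ a, σ a = v then t h.choose
      else Set.univ := ⟨_, rfl⟩
  have e1 : ∀ a, t' (σ a) = t a := by
    intro a
    have h : ∃ a', σ a' = σ a := ⟨a, rfl⟩
    rw [ht']
    simp only
    rw [dif_pos h, hσ h.choose_spec]
  have e2 : (fun V : B → Y => fun a => V (σ a)) ⁻¹' (Set.pi s t) =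
      Set.pi ((s.image σ : Finset B) : Set B) t' := by
    ext V
    simp only [Set.mem_preimage, Set.mem_pi, Finset.coe_image, Set.mem_image,
      Finset.mem_coe, forall_exists_index, and_imp, forall_apply_eq_imp_iff₂]
    exact forall_congr' fun a => by rw [e1]
  rw [e2, Measure.infinitePi_pi _ (fun v _ => ?_), Finset.prod_image (fun a _ b _ h => hσ h)]
  · exact Finset.prod_congr rfl fun a _ => by rw [e1]
  · rw [ht']
    simp only
    split_ifs with h
    · exact ht _
    · exact MeasurableSet.univ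

/-- the average of a function of finitely many phases -/
theorem integral_phases {A B Y : Type} [DecidableEq A] [Fintype A] [Fintype Y] [MeasurableSpace Y]
    [MeasurableSingletonClass Y] [Nonempty Y] (ι : A → B) (hι : Function.Injective ι)
    (F : (A → Y) → ℝ) :
    ∫ p : B → Y, F (fun a => p (ι a)) ∂(Measure.infinitePi fun _ : B => unif Y) =
      (∑ φ : A → Y, F φ) / (Fintype.card (A → Y) : ℝ) := by
  have hm : Measurable fun V : B → Y => fun a => V (ι a) :=
    measurable_pi_lambda _ fun a => measurable_pi_apply _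
  have hF : Measurable F := measurable_of_finite F
  have h1 : ∫ p : B → Y, F (fun a => p (ι a)) ∂(Measure.infinitePi fun _ : B => unif Y) =
      ∫ φ : A → Y, F φ ∂(Measure.infinitePi fun _ : A => unif Y) := by
    rw [← map_inj ι hι (unif Y), integral_map hm.aemeasurable hF.aestronglyMeasurable]
  rw [h1, integral_fintype Integrable.of_finite, Finset.sum_div]
  refine Finset.sum_congr rfl fun φ _ => ?_
  rw [Measure.real, Measure.infinitePi_singleton_of_fintype]
  simp only [unif_singleton, Finset.prod_const, Finset.card_univ]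
  rw [ENNReal.toReal_pow, ENNReal.toReal_inv, ENNReal.toReal_natCast, Fintype.card_fun,
    smul_eq_mul, Nat.cast_pow, inv_pow]
  field_simp

end meas

theorem exists_iota {S : Type} [Finite S] {D n t0 : ℕ} (G : Set (List (Ix (Lt D) n)))
    (hG : ∀ l ∈ G, l.length ≤ t0) (m : List (Ix (Lt D) n) → S) (hm : Set.InjOn m G) :
    ∃ ι : S → List (Ix (Lt D) n), Function.Injective ι ∧ ∀ l ∈ G, ι (m l) = l := by
  classical
  have := Fintype.ofFinite S
  let e := Fintype.equivFin S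
  refine ⟨fun s => if h : ∃ l ∈ G, m l = s then h.choose else
    List.replicate (t0 + 1 + e s) (0, 0), ?_, ?_⟩
  · intro s s' hss
    simp only at hss
    split_ifs at hss with h h' h'
    · rw [← h.choose_spec.2, ← h'.choose_spec.2, hss]
    · have := hG _ h.choose_spec.1
      rw [hss, List.length_replicate] at this
      omega
    · have := hG _ h'.choose_spec.1
      rw [← hss, List.length_replicate] at this
      omega
    · have := congrArg List.length hss
      simp only [List.length_replicate] at this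
      exact e.injective (Fin.ext (by omega))
  · intro l hl
    have h : ∃ l' ∈ G, m l' = m l := ⟨l, hl, rfl⟩
    simp only
    rw [dif_pos h]
    exact hm h.choose_spec.1 hl h.choose_spec.2

theorem fold (h1 : S_tile) (h2 : Pool.Agent.H987.Z.S_word) : S_fold := by
  classical
  intro d N R t0 n η hN hη
  have : NeZero N := ⟨by omega⟩
  obtain ⟨K, hK⟩ : ∃ K, K = N * (2 * (t0 * R) + 2) := ⟨_, rfl⟩
  have hKpos : 0 < K := by rw [hK]; positivity
  have : NeZero K := ⟨hKpos.ne'⟩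
  have hb : 2 * (t0 * R) < K := by
    rw [hK]
    nlinarith
  have hNK : N ∣ K := ⟨_, hK⟩
  obtain ⟨Q, _, _, ρ, s, hs, hw⟩ := h2 (Multiplicative (Fin (d + 1) → ZMod K)) (n + 1) t0
  have hρ : Function.Injective ρ := fun x x' h =>
    (hw [] [] x x' trivial trivial (by simp) (by simp) (by simpa [evC] using h)).2
  have : Fintype Q := Fintype.ofFinite Q
  have : Fintype (Q ⧸ ρ.range) := Fintype.ofFinite _
  obtain ⟨s0, hs0⟩ : ∃ s0, s0 = Fintype.card ((Q ⧸ ρ.range) × ((Q ⧸ ρ.range) → Ph (d + 1) N)) :=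
    ⟨_, rfl⟩
  let e : (Q ⧸ ρ.range) × ((Q ⧸ ρ.range) → Ph (d + 1) N) ≃ Fin s0 :=
    Fintype.equivFinOfCardEq hs0.symm
  have hs01 : 1 ≤ s0 := by
    rw [hs0]
    have : Nonempty (Q ⧸ ρ.range) := ⟨QuotientGroup.mk 1⟩
    exact Fintype.card_pos
  obtain ⟨N', R', Ψ, dp, B, hN', hKN', hbij, hmod, hper, hR', hstep, hBne, hBL, havg⟩ :=
    h1 d K s0 (t0 + 1) η hs01 hη
  let T := par ρ hρ e
  obtain ⟨E, hET⟩ : ∃ E : Lt (d + 1) × (Q × ((Q ⧸ ρ.range) → Ph (d + 1) N)) ≃ Lt (d + 1),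
      ∀ β y, E (β, y) = Ψ β (T y).1 (T y).2 :=
    ⟨((Equiv.refl _).prodCongr T).trans (Equiv.ofBijective _ hbij), fun _ _ => rfl⟩
  have hE : ∀ β q φ, E (β, q, φ) = Ψ β (e (QuotientGroup.mk q, φ))
    (Multiplicative.toAdd (xc ρ q) + cf K (φ (QuotientGroup.mk q))) := fun _ _ _ => hET _ _
  obtain ⟨σ, hσ⟩ : ∃ σ : Fin (n + 1) → Lt (d + 1) → Lt (d + 1),
      ∀ j β q φ, σ j (E (β, q, φ)) = E (β, q * s j, φ) :=
    ⟨fun j X => E ((E.symm X).1, (E.symm X).2.1 * s j, (E.symm X).2.2), fun j β q φ => by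
      simp only [Equiv.symm_apply_apply]⟩
  have hst : ∀ φ β q (v : Lt (d + 1)), 1 ≤ dp β → (∀ k, |v k| < (K : ℤ)) →
      ∃ β', E (β, q, φ) + v = E (β', q * ρ (rd K v), φ) ∧ dp β ≤ dp β' + 1 := by
    intro φ β q v h3 h4
    obtain ⟨β', h5, h6⟩ := hstep β (e (QuotientGroup.mk q, φ))
      (Multiplicative.toAdd (xc ρ q) + cf K (φ (QuotientGroup.mk q))) v h3 h4
    refine ⟨β', ?_, h6⟩
    rw [hE, hE, h5, mk_mul, xc_mul ρ hρ]
    congr 1
    funext k
    simp only [Pi.add_apply, toAdd_mul, rd, toAdd_ofAdd]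
    ring
  have hbs : ∀ φ β q (l : List (Ix (Lt (d + 1)) n)), t0 + 1 ≤ dp β → gL R t0 l →
      ∃ β', bs σ (E (β, q, φ)) l = E (β', q * evC ρ s (hat K l), φ) ∧ 1 ≤ dp β' := by
    intro φ β q l h3 h4
    obtain ⟨β', h5, h6⟩ := bs_eq ρ s σ dp (fun β q => E (β, q, φ)) (fun j β q => hσ j β q φ)
      (fun β q v => hst φ β q v) β q l (fun p hp i => by
        have := h4.2.2 p hp i
        have h7 : ((t0 * R : ℕ) : ℤ) < (K : ℤ) := by
          have : t0 * R < K := by omega
          exact_mod_cast this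
        linarith) (by have := h4.2.1; omega)
    exact ⟨β', h5, by have := h4.2.1; omega⟩
  -- different good lists, different cosets
  have hcos : ∀ q, Set.InjOn (fun l : List (Ix (Lt (d + 1)) n) =>
      (QuotientGroup.mk (q * evC ρ s (hat K l)) : Q ⧸ ρ.range)) {l | gL R t0 l} := by
    intro q l hl l' hl' h
    simp only at h
    rw [QuotientGroup.eq] at h
    obtain ⟨x, hx⟩ := h
    have h3 : evC ρ s (hat K l) * ρ x = evC ρ s (hat K l') * ρ 1 := by
      rw [hx]; simp
    have h4 := hw (hat K l) (hat K l') x 1 (redC_hat hb l hl.1 hl.2.2) (redC_hat hb l' hl'.1 hl'.2.2)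
      (by rw [hat_length]; exact hl.2.1) (by rw [hat_length]; exact hl'.2.1) h3
    exact hat_inj hb l l' hl.2.2 hl'.2.2 h4.1
  have hι : ∀ q, ∃ ι : (Q ⧸ ρ.range) → List (Ix (Lt (d + 1)) n), Function.Injective ι ∧
      ∀ l ∈ {l | gL R t0 l}, ι (QuotientGroup.mk (q * evC ρ s (hat K l))) = l := fun q =>
    exists_iota (t0 := t0) {l | gL R t0 l} (fun l hl => hl.2.1) _ (hcos q)
  choose ι hι1 hι2 using hι
  let δ : Q → (Q ⧸ ρ.range) → Fin (d + 1) → ZMod N := fun q c k =>
    ZMod.castHom hNK (ZMod N) (Multiplicative.toAdd (xc ρ (q * evC ρ s (hat K (ι q c)))) k)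
  let F : Q → ((Q ⧸ ρ.range) → Ph (d + 1) N) → ((Q ⧸ ρ.range) → Ph (d + 1) N) := fun q φ c =>
    sh (δ q c) (φ c)
  let Θ : (↥B × Q) → (List (Ix (Lt (d + 1)) n) → Ph (d + 1) N) → Lt (d + 1) := fun γ p =>
    E (γ.1, γ.2, F γ.2 fun c => p (ι γ.2 c))
  have hfin : Finite (↥B × Q) := inferInstance
  refine ⟨N', R', σ, ↥B × Q, inferInstance, Θ, hN', hNK.trans hKN', ?_, ?_, ?_, ?_, ?_, ?_, ?_, ?_⟩
  · obtain ⟨β, hβ⟩ := hBne
    exact ⟨(⟨β, hβ⟩, 1)⟩
  · intro j X
    obtain ⟨⟨β, q, φ⟩, rfl⟩ := E.surjective X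
    rw [hσ, hσ, mul_assoc, hs, mul_one]
  · intro j X v
    obtain ⟨⟨β, q, φ⟩, rfl⟩ := E.surjective X
    obtain ⟨w, hw'⟩ := hper v
    have h3 : E (β, q, φ) + (N' : ℤ) • v = E (β + w, q, φ) := by rw [hE, hE, hw']
    have h4 : E (β, q * s j, φ) + (N' : ℤ) • v = E (β + w, q * s j, φ) := by rw [hE, hE, hw']
    rw [h3, hσ, hσ, h4]
  · intro j X i
    obtain ⟨⟨β, q, φ⟩, rfl⟩ := E.surjective X
    rw [hσ, hE, hE]
    exact hR' _ _ _ _ _ _
  · intro γ
    have hm : Measurable fun p : List (Ix (Lt (d + 1)) n) → Ph (d + 1) N => fun c => p (ι γ.2 c) :=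
      measurable_pi_lambda _ fun a => measurable_pi_apply _
    have hF : Measurable fun φ : (Q ⧸ ρ.range) → Ph (d + 1) N => E (γ.1, γ.2, F γ.2 φ) :=
      measurable_of_finite _
    exact hF.comp hm
  · rintro ⟨⟨β, hβ⟩, q⟩ p ⟨l, x⟩ ⟨hl, hx⟩ ⟨l', x'⟩ ⟨hl', hx'⟩ h
    have hdp := hBL β hβ
    have hlt : ∀ {y : Lt (d + 1)}, (∀ i, |y i| ≤ ((t0 * R : ℕ) : ℤ)) → ∀ k, |y k| < (K : ℤ) := by
      intro y hy k
      have h3 := hy k
      have h7 : ((t0 * R : ℕ) : ℤ) < (K : ℤ) := by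
        have : t0 * R < K := by omega
        exact_mod_cast this
      linarith
    obtain ⟨β₁, e1, e2⟩ := hbs (F q fun c => p (ι q c)) β q l hdp hl
    obtain ⟨β₁', e1', e2'⟩ := hbs (F q fun c => p (ι q c)) β q l' hdp hl'
    obtain ⟨β₂, e3, -⟩ := hst (F q fun c => p (ι q c)) β₁ (q * evC ρ s (hat K l)) x e2 (hlt hx)
    obtain ⟨β₂', e3', -⟩ := hst (F q fun c => p (ι q c)) β₁' (q * evC ρ s (hat K l')) x' e2'
      (hlt hx')
    simp only [pos, Θ] at h
    rw [e1, e1', e3, e3'] at h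
    have h3 := E.injective h
    simp only [Prod.mk.injEq] at h3
    have h4 := h3.2.1
    rw [mul_assoc, mul_assoc] at h4
    have h5 := hw (hat K l) (hat K l') (rd K x) (rd K x') (redC_hat hb l hl.1 hl.2.2)
      (redC_hat hb l' hl'.1 hl'.2.2) (by rw [hat_length]; exact hl.2.1)
      (by rw [hat_length]; exact hl'.2.1) (mul_left_cancel h4)
    have h6 := hat_inj hb l l' hl.2.2 hl'.2.2 h5.1
    have h7 := rd_inj hb hx hx' h5.2
    exact Prod.ext h6 h7
  · rintro ⟨⟨β, hβ⟩, q⟩ p l hl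
    have hdp := hBL β hβ
    obtain ⟨β₁, e1, e2⟩ := hbs (F q fun c => p (ι q c)) β q l hdp hl
    have key : ∀ k, ((bs σ (Θ (⟨β, hβ⟩, q) p) l k : ℤ) : ZMod N) = ((p l k : ℕ) : ZMod N) := by
      intro k
      have h3 : ((bs σ (Θ (⟨β, hβ⟩, q) p) l k : ℤ) : ZMod K) =
          Multiplicative.toAdd (xc ρ (q * evC ρ s (hat K l))) k +
            cf K (F q (fun c => p (ι q c)) (QuotientGroup.mk (q * evC ρ s (hat K l)))) k := by
        simp only [Θ]
        rw [e1, hE, hmod]
        rfl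
      have h4 := congrArg (ZMod.castHom hNK (ZMod N)) h3
      rw [map_add, map_intCast] at h4
      rw [h4]
      simp only [cf, F]
      rw [map_natCast, sh_spec]
      simp only [δ]
      rw [hι2 q l hl]
      ring
    have hw' : ∀ k, ∃ w : ℤ, bs σ (Θ (⟨β, hβ⟩, q) p) l k = ((p l k : ℕ) : ℤ) + (N : ℤ) * w := by
      intro k
      have h3 : (((p l k : ℕ) : ℤ) : ZMod N) = ((bs σ (Θ (⟨β, hβ⟩, q) p) l k : ℤ) : ZMod N) := by
        rw [key k]; simp
      rw [ZMod.intCast_eq_intCast_iff_dvd_sub] at h3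
      obtain ⟨w, hw'⟩ := h3
      exact ⟨w, by linarith⟩
    choose w hw' using hw'
    refine ⟨w, ?_⟩
    funext k
    rw [hw' k]
    simp [ph]
  · intro f U hf0 hfU hfper
    refine (havg f U hf0 hfU hfper).trans (le_of_eq ?_)
    congr 1
    have hint : ∀ (β : Lt (d + 1)) (q : Q),
        ∫ p : List (Ix (Lt (d + 1)) n) → Ph (d + 1) N, f (E (β, q, F q fun c => p (ι q c)))
          ∂(Measure.infinitePi fun _ : List (Ix (Lt (d + 1)) n) => unif (Ph (d + 1) N)) =
        (∑ φ : (Q ⧸ ρ.range) → Ph (d + 1) N, f (E (β, q, φ))) /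
          (Fintype.card ((Q ⧸ ρ.range) → Ph (d + 1) N) : ℝ) := by
      intro β q
      rw [integral_phases (ι q) (hι1 q) (fun φ => f (E (β, q, F q φ)))]
      congr 1
      exact Equiv.sum_comp (Equiv.piCongrRight fun c => sh (δ q c)) fun φ => f (E (β, q, φ))
    have hcard : (s0 : ℝ) * (K : ℝ) ^ (d + 1) =
        (Fintype.card Q : ℝ) * (Fintype.card ((Q ⧸ ρ.range) → Ph (d + 1) N) : ℝ) := by
      have h3 := Fintype.card_congr T
      rw [Fintype.card_prod, Fintype.card_prod, Fintype.card_fin] at h3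
      have h4 : Fintype.card (Fin (d + 1) → ZMod K) = K ^ (d + 1) := by
        rw [Fintype.card_fun, ZMod.card, Fintype.card_fin]
      rw [h4] at h3
      exact_mod_cast h3.symm
    have hsum : ∀ β : Lt (d + 1), ∑ i : Fin s0, ∑ r : Fin (d + 1) → ZMod K, f (Ψ β i r) =
        ∑ q : Q, ∑ φ : (Q ⧸ ρ.range) → Ph (d + 1) N, f (E (β, q, φ)) := by
      intro β
      rw [← Fintype.sum_prod_type', ← Fintype.sum_prod_type']
      rw [← Equiv.sum_comp T]
      exact Finset.sum_congr rfl fun y _ => by rw [hET]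
    have hΓ : ∑ γ : ↥B × Q, ∫ p, f (Θ γ p) ∂(Measure.infinitePi fun _ :
          List (Ix (Lt (d + 1)) n) => unif (Ph (d + 1) N)) =
        (∑ β ∈ B, ∑ i : Fin s0, ∑ r : Fin (d + 1) → ZMod K, f (Ψ β i r)) /
          (Fintype.card ((Q ⧸ ρ.range) → Ph (d + 1) N) : ℝ) := by
      rw [Fintype.sum_prod_type, Finset.sum_div, ← Finset.sum_coe_sort B]
      refine Finset.sum_congr rfl fun β _ => ?_
      rw [hsum, Finset.sum_div]
      exact Finset.sum_congr rfl fun q _ => hint _ _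
    rw [hΓ, hcard, Fintype.card_prod, Fintype.card_coe]
    push_cast
    have h5 : (Fintype.card ((Q ⧸ ρ.range) → Ph (d + 1) N) : ℝ) ≠ 0 := by
      have : 0 < Fintype.card ((Q ⧸ ρ.range) → Ph (d + 1) N) := Fintype.card_pos
      positivity
    rw [div_div]
    congr 1
    ring

end Pool.Agent.H323.Y987
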